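import Mathlib

namespace Pool.Agent.Results.MP_314109_co.NotNegType

open Finset

/-- `d(A,B) = sqrt(|A \ B|^2 + |B \ A|^2)` -/
noncomputable def d {X : Type} [DecidableEq X] (A B : Finset X) : ℝ :=
  Real.sqrt (((A \ B).card : ℝ) ^ 2 + ((B \ A).card : ℝ) ^ 2)

theorem d_eq {X : Type} [DecidableEq X] (A B : Finset X) :
    d A B = Real.sqrt (((A \ B).card ^ 2 + (B \ A).card ^ 2 : ℕ) : ℝ) := by
  simp [d]

theorem result : ∃ A B : Fin 4 → Finset (Fin 5), Function.Injective A ∧ Function.Injective B ∧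
    ∑ i, ∑ j, d (A i) (B j) <
      (∑ i, ∑ j ∈ univ.filter (fun j => i < j), d (A i) (A j)) +
        ∑ i, ∑ j ∈ univ.filter (fun j => i < j), d (B i) (B j) := by
  obtain ⟨A, B, h1, h2, h3, h4, h5⟩ : ∃ A B : Fin 4 → Finset (Fin 5),
      Function.Injective A ∧ Function.Injective B ∧
      (∀ i j, (A i \ A j).card ^ 2 + (A j \ A i).card ^ 2 =
        ![![0, 1, 8, 5], ![1, 0, 13, 8], ![8, 13, 0, 1], ![5, 8, 1, 0]] i j) ∧
      (∀ i j, (B i \ B j).card ^ 2 + (B j \ B i).card ^ 2 =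
        ![![0, 8, 5, 1], ![8, 0, 1, 13], ![5, 1, 0, 8], ![1, 13, 8, 0]] i j) ∧
      (∀ i j, (A i \ B j).card ^ 2 + (B j \ A i).card ^ 2 =
        ![![1, 5, 2, 2], ![2, 2, 5, 5], ![5, 5, 2, 2], ![2, 2, 1, 5]] i j) :=
    ⟨![{0, 2, 3}, {2, 3}, {0, 1, 4}, {0, 1}], ![{0, 2}, {1, 3}, {0, 1, 3}, {0, 2, 4}],
      by decide, by decide, by decide, by decide, by decide⟩
  refine ⟨A, B, h1, h2, ?_⟩
  simp only [d_eq, h3, h4, h5, sum_filter, Fin.sum_univ_four]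
  have s2 : Real.sqrt 2 < 1.4143 := Real.sqrt_lt' (by norm_num) |>.2 (by norm_num)
  have s5 : Real.sqrt 5 < 2.2361 := Real.sqrt_lt' (by norm_num) |>.2 (by norm_num)
  have s8 : 2.828 < Real.sqrt 8 := Real.lt_sqrt (by norm_num) |>.2 (by norm_num)
  have s13 : 3.605 < Real.sqrt 13 := Real.lt_sqrt (by norm_num) |>.2 (by norm_num)
  simp
  linarith

end Pool.Agent.Results.MP_314109_co.NotNegType
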